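import Mathlib
import Pool.Agent.R870.RC.CovLow

set_option autoImplicit false

/-!
# Random abelian covers of projective space of general type: rational points of polynomial height

Let `n`, `s` and integers `k_i ≥ 1`, `e_i ≥ 0` with `∑ (k_i - 1) e_i ≥ n + 2` be given. For forms
`F_1, …, F_s` of degrees `k_i e_i` in `n + 1` variables let `X_F` be the cover

  `w_1 ^ (k_1) = F_1 (x), …, w_s ^ (k_s) = F_s (x)`

of projective `n`-space (for `s = 1` the cyclic covers of degree `k` branched along hypersurfaces
of degree `k e`, for instance the double covers `w ^ 2 = F (x)`). The general `X_F` is a smooth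
projective variety of general type. Among the
`(2 H + 1) ^ (∑ binom (n + k_i e_i) (k_i e_i))` covers with integral coefficients of absolute value
at most `H` the proportion of those with a rational point over a point of projective `n`-space of
height at most `B` is, for all `H, B ≥ 1`,

  at least `c H ^ (-σ)` and at most `C H ^ (-σ) (1 + B ^ (n + 1 + ∑ e_i) / H ^ (∑ k_i e_i))`,
  `σ = ∑ (1 - 1 / k_i)`.

Hence it has the exact order of magnitude `H ^ (-σ)` for the points of height up to
`H ^ (∑ k_i e_i / (n + 1 + ∑ e_i))`, an exponent greater than `1`.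
-/

namespace Pool.Agent.Results.MP_2ae8fe_ag.RandomAbelianCovers

open Pool.Agent.R870.RC

theorem result (n s : ℕ) (k e : Fin s → ℕ) (hk : ∀ i, 1 ≤ k i)
    (hd : n + 2 ≤ ∑ i, (k i - 1) * e i) :
    ∃ c C : ℝ, 0 < c ∧ ∀ H B : ℕ, 1 ≤ H → 1 ≤ B →
      (Systems n (fun i => k i * e i) H).Finite ∧
      (Systems n (fun i => k i * e i) H).ncard =
        (2 * H + 1) ^ (∑ i, (n + k i * e i).choose (k i * e i)) ∧
      c * (H : ℝ) ^ (-∑ i, (1 - 1 / (k i : ℝ))) *
        ((Systems n (fun i => k i * e i) H).ncard : ℝ) ≤ ((CoverPoint n k e H B).ncard : ℝ) ∧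
      ((CoverPoint n k e H B).ncard : ℝ) ≤ C * (H : ℝ) ^ (-∑ i, (1 - 1 / (k i : ℝ))) *
        (1 + (B : ℝ) ^ (n + 1 + ∑ i, e i) / (H : ℝ) ^ (∑ i, k i * e i)) *
        ((Systems n (fun i => k i * e i) H).ncard : ℝ) :=
  covers n s k e hk hd

end Pool.Agent.Results.MP_2ae8fe_ag.RandomAbelianCovers
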