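import Mathlib
import Pool.Agent.R870.RC.Low

set_option autoImplicit false

/-!
# Random complete intersections of general type have no rational points of polynomial height

Let `n`, `s` and degrees `d_1, …, d_s` with `d_1 + ⋯ + d_s ≥ n + 2` be given: the smooth complete
intersections of `s` hypersurfaces of these degrees in projective `n`-space are of general type.
Among the `(2 H + 1) ^ (∑ binom (n + d_i) (d_i))` systems `(F_1, …, F_s)` of forms of degrees
`d_1, …, d_s` with integer coefficients of absolute value at most `H`, the proportion of those for
which the variety `F_1 = ⋯ = F_s = 0` has a rational point of height at most `B` is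

  at least `c / H ^ s` and at most `C / H ^ s * (1 + B ^ (n + 1) / H ^ (d_1 + ⋯ + d_s))`

for all `H, B ≥ 1`, with constants `c, C > 0` that depend only on `n` and the degrees.

Hence the proportion of the complete intersections with a rational point of height at most
`H ^ (∑ d_i / (n + 1))` (the exponent is `> 1`) has the exact order of magnitude `H ^ (-s)`, and it
tends to `0` for points of height up to `H ^ ((s + ∑ d_i) / (n + 1) - ε)`.

Proof: for a primitive vector `x` with largest coordinate `b`, the number of the forms `F` of degree
`d` and height `≤ H` with `F (x) = 0` is at most `C (2 H + 1) ^ N / (H min (b, H) ^ d)`. If the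
quotient of every coordinate with the largest one has height at most `H`, all integers `t`,
`|t| ≤ H b ^ d`, are values at `x` of forms of height `≪ H` (induction on `d`). Otherwise the binary
forms of height `≤ H` in two coordinates take different values at `x`.
-/

namespace Pool.Agent.Results.MP_2ae8fe_ag.RandomCompleteInters

open Pool.Agent.R870.RC

theorem result (n s : ℕ) (d : Fin s → ℕ) (hd : n + 2 ≤ ∑ i, d i) :
    ∃ c C : ℝ, 0 < c ∧ ∀ H B : ℕ, 1 ≤ H → 1 ≤ B →
      (Systems n d H).Finite ∧
      (Systems n d H).ncard = (2 * H + 1) ^ (∑ i, (n + d i).choose (d i)) ∧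
      c / (H : ℝ) ^ s * ((Systems n d H).ncard : ℝ) ≤ ((WithPoint n d H B).ncard : ℝ) ∧
      ((WithPoint n d H B).ncard : ℝ) ≤ C / (H : ℝ) ^ s *
        (1 + (B : ℝ) ^ (n + 1) / (H : ℝ) ^ (∑ i, d i)) * ((Systems n d H).ncard : ℝ) :=
  main n s d hd

end Pool.Agent.Results.MP_2ae8fe_ag.RandomCompleteInters
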