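import Mathlib
import Pool.Agent.R870.RT.Main

set_option autoImplicit false

/-!
# Random complete intersections in tori with given supports

Let `A_1, …, A_s ⊂ ℤ^n` be finite, `P` the sum of their convex hulls. Hypotheses:

* `AdjointBig A`: the interior of `P` contains a point `m₀` with `⟨a, m₀⟩ > 1 + min_P ⟨a, ·⟩` for all
  nonzero `a ∈ ℤ^n`. That is, the Fine interior of `P` has dimension `n`, the adjoint divisor `K + P` is
  big on toric varieties, and the general complete intersection `F_1 = … = F_s = 0` in the torus with
  supports `A_i` is of general type.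
* `Conn l (A i)`: `A_i` is not the union of two nonempty parts of `ℓ¹`-distance larger than `l`.

Then for all `H, B ≥ 1` with `B ^ l ≤ H`, the proportion of the systems `(F_1, …, F_s)` of Laurent
polynomials with supports in the `A_i` and integer coefficients of absolute value at most `H` that have
a common zero `x ∈ (ℚ^*)^n`, all coordinates of height at most `B`, is of the exact order `H ^ (-s)`.

For example (`l = 1`): all monomials of degree at most `d_i` in `n` variables, `∑ d_i ≥ n + 2`; all
monomials of bounded degrees in several groups of variables, for which the general complete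
intersection in a product of projective spaces is of general type.
-/

namespace Pool.Agent.Results.MP_2ae8fe_ag.RandomNewtonPolytopes

open Pool.Agent.R870.RT

theorem result (n s l : ℕ) (A : Fin s → Finset (Fin n → ℤ)) (hl : ∀ i, Conn l (A i))
    (hadj : AdjointBig A) : ∃ c C : ℝ, 0 < c ∧ ∀ H B : ℕ, 1 ≤ B → B ^ l ≤ H →
      (Systems A H).ncard = (2 * H + 1) ^ (∑ i, (A i).card) ∧
      c / (H : ℝ) ^ s * ((Systems A H).ncard : ℝ) ≤ ((WithPoint A H B).ncard : ℝ) ∧
      ((WithPoint A H B).ncard : ℝ) ≤ C / (H : ℝ) ^ s * ((Systems A H).ncard : ℝ) :=
  newton n s l A hl hadj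

end Pool.Agent.Results.MP_2ae8fe_ag.RandomNewtonPolytopes
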