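import Mathlib
import Pool.Agent.R870.Sep3

set_option autoImplicit false

/-!
# Lang's conjecture for points given by factorials, exponentials of any order and polynomials

Let `X` be an integral closed subvariety of projective `n`-space over a number field `k` (for
instance over `ℚ`).

(1) Suppose that `X` is not uniruled (for instance of general type, of positive dimension).  For
every `r` there is ONE proper closed subset `Z = X ∩ {G = 0}` of `X`, defined over `k`, such that
for all `q` and all sequences `S_1, …, S_q` of nonzero algebraic numbers whose heights have widely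
separated growth (`h(S_1(m))` grows faster than `m`, and `h(S_{i+1}(m))` faster than `h(S_i(m))`;
for instance `m!`, `2 ^ (m ^ 2)`, `2 ^ (2 ^ m)`), and for all exponents `b_ji, l_j`, all nonzero
algebraic numbers `α_j` and all algebraic vectors `w_j`, only finitely many points of `X ∖ Z` have
homogeneous coordinates

  `x_m = ∑_{j = 1}^r S_1(m) ^ (b_j1) ⋯ S_q(m) ^ (b_jq) α_j ^ m m ^ (l_j) w_j`,  `m = 0, 1, 2, …`

For instance for a surface `X` over `ℚ` in projective 3-space of general type, the points
`(m! + 2 ^ m : 3 ^ (m ^ 2) - m : 5 ^ (2 ^ m) m! : 7 m ^ 3 - 1)` that lie on `X ∖ Z` are finite in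
number; they do not lie in a finitely generated group, nor in a set with a known theorem of
Skolem–Mahler–Lech type.  The exceptional set `Z` depends only on the number `r` of terms.

(2) If `X` is uniruled, this fails: for some `r` and every `G` there are algebraic vectors
`w_0, …, w_(r-1)` such that for EVERY sequence `S` of nonzero algebraic numbers with infinitely many
values the vectors `∑ S(m) ^ j w_j` give infinitely many points of `X` off `G = 0`.

Method: if the height of the parameter `t = S_q(m)` is much larger than the heights of the
coefficients, then an equation in `t` that holds at `S_q(m)` is an identity, so the whole curve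
`T ↦ ∑ T ^ (b_jq) …` lies on `X`; it is constant or contained in `Z`.  In the first case the point
is given by the terms with the same exponent `b_jq`, and `S_q` can be removed.  The case `q = 0`
(exponential polynomials) uses the library theorem on sums of vectors with multipliers in a
finitely generated group and moving coefficients (`Y215/SK`).
-/

namespace Pool.Agent.Results.MP_2ae8fe_ag.SeparatedGrowth

open MvPolynomial Pool.Agent.Helper259.AbsHt Pool.Agent.H533R3.SL Pool.Agent.R870

theorem result (k : Type) [Field k] [NumberField k] (n N : ℕ)
    (P : Fin N → MvPolynomial (Fin (n + 1)) k) (hP : ∀ i, ∃ e, (P i).IsHomogeneous e)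
    (hprime : (Ideal.span (Set.range P)).IsPrime) :
    (¬ Uniruled (Ideal.span (Set.range P)) → ∀ r : ℕ,
      ∃ G : MvPolynomial (Fin (n + 1)) k, (∃ e, G.IsHomogeneous e) ∧
        G ∉ Ideal.span (Set.range P) ∧
        ∀ [Algebra k Qbar] (q : ℕ) (S : Fin q → ℕ → Qbarˣ), Separated S →
          ∀ (b : Fin r → Fin q → ℕ) (α : Fin r → Qbarˣ) (l : Fin r → ℕ)
            (w : Fin r → Fin (n + 1) → Qbar), (sepOff P G S b α l w).Finite) ∧
    (Uniruled (Ideal.span (Set.range P)) →
      ∃ r : ℕ, ∀ G : MvPolynomial (Fin (n + 1)) k, (∃ e, G.IsHomogeneous e) →
        G ∉ Ideal.span (Set.range P) →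
        ∃ (_ : Algebra k Qbar) (w : Fin r → Fin (n + 1) → Qbar),
          ∀ S : ℕ → Qbarˣ, (Set.range S).Infinite →
            (sepOff P G (fun _ : Fin 1 => S) (fun j _ => (j : ℕ)) (fun _ => 1)
              (fun _ => 0) w).Infinite) :=
  ⟨fun hnu r => sep_main P hP hprime hnu r, fun hu => sep_converse k P hu⟩

end Pool.Agent.Results.MP_2ae8fe_ag.SeparatedGrowth
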